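import Mathlib
import Pool.Graph.R_seed8.W185.SRG.Main

/-!
Loops with many twists: the structure function, the shears and the extension property.
-/

set_option autoImplicit false
set_option linter.unusedSectionVars false

namespace Pool.Agent.KS6_51.WQ

open Finset Pool.Agent.W185.SRG

section

variable {m N : ℕ} {A Γ : Type} [AddCommGroup A] [Module (ZMod 2) A] [Fintype A] [DecidableEq A]
  [AddCommGroup Γ] [Module (ZMod 2) Γ] [Fintype Γ] [DecidableEq Γ]

/-- The sum of the families of homomorphisms of the `m` gadgets. -/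
def phs (e : Fin m → Fin N → A) (x y : A) (c : Mat N Γ) : Γ := ∑ j, phi (e j) x y c

theorem phs_add (e : Fin m → Fin N → A) (x y : A) (c d : Mat N Γ) :
    phs e x y (c + d) = phs e x y c + phs e x y d := by
  unfold phs
  rw [← Finset.sum_add_distrib]
  exact Finset.sum_congr rfl fun j _ => phi_add (e j) x y c d

theorem phs_zero (e : Fin m → Fin N → A) (x y : A) : phs e x y (0 : Mat N Γ) = 0 := by
  have := phs_add e x y (0 : Mat N Γ) 0
  rw [add_zero] at this
  exact add_eq_left.1 this.symm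

/-- The structure function of the loop with parameters `h` and `τ`. -/
def FS (e : Fin m → Fin N → A) (bs : Fin N) (h : A → A → Γ) (τ : Fin m → Γ) (x y : A)
    (c : Mat N Γ) : Γ :=
  phs e x y c + h x y + ∑ j, (if x = e j bs ∧ y = 0 then τ j else 0)

/-- The linear maps that move the defects from `bs` to `b`. -/
def IsMs (e : Fin m → Fin N → A) (bs : Fin N) (γ : Fin m → Γ) (b : Fin N)
    (M : A →ₗ[ZMod 2] Mat N Γ) : Prop :=
  ∀ j, IsM (e j) bs (γ j) b M

theorem FS_isMs {e : Fin m → Fin N → A} {bs : Fin N} {τ τ' : Fin m → Γ} {b : Fin N}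
    {M : A →ₗ[ZMod 2] Mat N Γ}
    (hM : IsMs e bs (fun j => τ j + τ' j) b M) (he : ∀ j, Function.Injective (e j))
    (h : A → A → Γ) (x y : A) (hxy : ∀ j, x ≠ e j b) (c : Mat N Γ) :
    FS e bs h τ' x y (c + M x) = FS e bs h τ x y c := by
  unfold FS
  rw [phs_add]
  have h1 : phs e x y (M x) = ∑ j, (if x = e j bs ∧ y = 0 then τ j + τ' j else 0) :=
    Finset.sum_congr rfl fun j _ => phi_isM (hM j) (he j) x y (hxy j)
  rw [h1]
  have h2 : ∑ j, (if x = e j bs ∧ y = 0 then τ j + τ' j else 0) +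
      ∑ j, (if x = e j bs ∧ y = 0 then τ' j else 0) =
      ∑ j, (if x = e j bs ∧ y = 0 then τ j else 0) := by
    rw [← Finset.sum_add_distrib]
    refine Finset.sum_congr rfl fun j _ => ?_
    by_cases hj : x = e j bs ∧ y = 0
    · rw [if_pos hj, if_pos hj, if_pos hj, add_assoc, two_self, add_zero]
    · rw [if_neg hj, if_neg hj, if_neg hj, add_zero]
  rw [← h2]
  abel

theorem co_sh2s {e : Fin m → Fin N → A} {bs : Fin N} {τ τ' : Fin m → Γ} {b : Fin N}
    {M : A →ₗ[ZMod 2] Mat N Γ}
    (hM : IsMs e bs (fun j => τ j + τ' j) b M) (he : ∀ j, Function.Injective (e j))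
    (h : A → A → Γ) (p : QQ N A Γ × QQ N A Γ) (hp : ∀ j, p.1.1 ≠ e j b) (l : Fin 3) :
    co (FS e bs h τ') l (sh2 M p) = sh M (co (FS e bs h τ) l p) := by
  fin_cases l
  · rfl
  · rfl
  · show op (FS e bs h τ') (sh M p.1) (sh M p.2) = sh M (op (FS e bs h τ) p.1 p.2)
    refine Prod.ext rfl (Prod.ext ?_ ?_)
    · show p.1.2.1 + M p.1.1 + (p.2.2.1 + M p.2.1) = p.1.2.1 + p.2.2.1 + M (p.1.1 + p.2.1)
      rw [map_add]
      abel
    · show p.1.2.2 + p.2.2.2 + FS e bs h τ' p.1.1 p.2.1 (p.1.2.1 + M p.1.1) =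
        p.1.2.2 + p.2.2.2 + FS e bs h τ p.1.1 p.2.1 p.1.2.1
      rw [FS_isMs hM he h p.1.1 p.2.1 hp]

/-- The graph with parameters `h` and `τ`. -/
def GS (e : Fin m → Fin N → A) (bs : Fin N) (h : A → A → Γ) (τ : Fin m → Γ) :
    SimpleGraph (QQ N A Γ × QQ N A Γ) :=
  netGraph (co (FS e bs h τ))

/-- The span of the vectors with the second index `b`. -/
def AB (e : Fin m → Fin N → A) (b : Fin N) : Submodule (ZMod 2) A :=
  Submodule.span (ZMod 2) (Set.range fun j => e j b)

/-- `lam` is dual to `e`. -/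
def IsDual2 (e : Fin m → Fin N → A) (lam : Fin m → Fin N → A →ₗ[ZMod 2] ZMod 2) : Prop :=
  ∀ j i j' i', lam j i (e j' i') = if j = j' ∧ i = i' then 1 else 0

theorem IsDual2.isDual {e : Fin m → Fin N → A} {lam : Fin m → Fin N → A →ₗ[ZMod 2] ZMod 2}
    (hd : IsDual2 e lam) (j : Fin m) : IsDual (e j) (lam j) := by
  intro i i'
  rw [hd]
  by_cases h : i = i'
  · rw [if_pos ⟨rfl, h⟩, if_pos h]
  · rw [if_neg (fun h' => h h'.2), if_neg h]

theorem IsDual2.zero_of_ne {e : Fin m → Fin N → A} {lam : Fin m → Fin N → A →ₗ[ZMod 2] ZMod 2}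
    (hd : IsDual2 e lam) {b b' : Fin N} (hb : b' ≠ b) (j : Fin m) {x : A} (hx : x ∈ AB e b) :
    lam j b' x = 0 := by
  have h1 : AB e b ≤ LinearMap.ker (lam j b') := by
    unfold AB
    rw [Submodule.span_le]
    rintro _ ⟨j', rfl⟩
    show lam j b' (e j' b) = 0
    rw [hd, if_neg (fun h => hb h.2)]
  exact LinearMap.mem_ker.1 (h1 hx)

theorem IsDual2.exists_ne {e : Fin m → Fin N → A} {lam : Fin m → Fin N → A →ₗ[ZMod 2] ZMod 2}
    (hd : IsDual2 e lam) {b : Fin N} {x : A} (hx : x ∈ AB e b) (hx0 : x ≠ 0) :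
    ∃ j, lam j b x ≠ 0 := by
  by_contra hcon
  push Not at hcon
  obtain ⟨c, rfl⟩ := (Submodule.mem_span_range_iff_exists_fun (ZMod 2)).1 hx
  apply hx0
  refine Finset.sum_eq_zero fun j _ => ?_
  have h1 := hcon j
  rw [map_sum, Finset.sum_eq_single j] at h1
  · rw [map_smul, hd, if_pos ⟨rfl, rfl⟩, smul_eq_mul, mul_one] at h1
    rw [h1, zero_smul]
  · intro j' _ hj'
    rw [map_smul, hd, if_neg (fun h => hj' h.1.symm), smul_zero]
  · intro h
    exact absurd (Finset.mem_univ j) h

/-- The counting of the bad indices. -/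
theorem card_le_of_lam {lam : Fin m → Fin N → A →ₗ[ZMod 2] ZMod 2}
    (W : Submodule (ZMod 2) A) (B : Finset (Fin N)) (w : Fin N → A) (hw : ∀ b ∈ B, w b ∈ W)
    (hne : ∀ b ∈ B, ∃ j, lam j b (w b) ≠ 0)
    (h0 : ∀ b ∈ B, ∀ b' ∈ B, b' ≠ b → ∀ j, lam j b' (w b) = 0) :
    B.card ≤ Module.finrank (ZMod 2) W := by
  have hli : LinearIndependent (ZMod 2) (fun b : B => (⟨w b.1, hw b.1 b.2⟩ : W)) := by
    rw [Fintype.linearIndependent_iff]
    intro c hc b
    obtain ⟨j, hj⟩ := hne b.1 b.2
    have h1 := congrArg (fun v : W => lam j b.1 v.1) hc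
    have h2 : lam j b.1 ((∑ i : B, c i • (⟨w i.1, hw i.1 i.2⟩ : W) : W) : A) =
        ∑ i : B, c i • lam j b.1 (w i.1) := by
      rw [Submodule.coe_sum, map_sum]
      refine Finset.sum_congr rfl fun i _ => ?_
      rw [Submodule.coe_smul, map_smul]
    have h3 : lam j b.1 ((∑ i : B, c i • (⟨w i.1, hw i.1 i.2⟩ : W) : W) : A) = 0 := by
      have h4 : lam j b.1 ((0 : W) : A) = 0 := by
        rw [Submodule.coe_zero, map_zero]
      rw [← h4]
      exact h1
    rw [h2, Finset.sum_eq_single b] at h3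
    · rw [smul_eq_mul] at h3
      rcases mul_eq_zero.1 h3 with h5 | h5
      · exact h5
      · exact absurd h5 hj
    · intro b' _ hb'
      rw [h0 b'.1 b'.2 b.1 b.2 (fun h => hb' (Subtype.ext h.symm)), smul_zero]
    · intro h
      exact absurd (Finset.mem_univ b) h
  have h1 := hli.fintype_card_le_finrank
  rwa [Fintype.card_coe] at h1

/-- Two linearly independent families which meet `W` trivially: a linear map that vanishes on
`W` and has given values. -/
theorem exists_functional2 {e : Fin m → Fin N → A}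
    {lam : Fin m → Fin N → A →ₗ[ZMod 2] ZMod 2} (hd : IsDual2 e lam) (γ : Fin m → Γ)
    (W : Submodule (ZMod 2) A) {b b' : Fin N} (hbb : b ≠ b') (hW : Disjoint W (AB e b ⊔ AB e b')) :
    ∃ g : A →ₗ[ZMod 2] Γ, (∀ j, g (e j b) = γ j) ∧ (∀ j, g (e j b') = γ j) ∧
      ∀ w ∈ W, g w = 0 := by
  let v : Fin m ⊕ Fin m → A := Sum.elim (fun j => e j b) (fun j => e j b')
  have hv : LinearIndependent (ZMod 2) v := by
    rw [Fintype.linearIndependent_iff]
    intro c hc i
    rw [Fintype.sum_sum_type] at hc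
    have hc' : ∑ j, c (Sum.inl j) • e j b + ∑ j, c (Sum.inr j) • e j b' = 0 := hc
    rcases i with j | j
    · have h1 := congrArg (lam j b) hc'
      rw [map_add, map_sum, map_sum, map_zero, Finset.sum_eq_single j,
        Finset.sum_eq_zero (s := Finset.univ) (f := fun j' => lam j b (c (Sum.inr j') • e j' b')),
        map_smul, hd, if_pos ⟨rfl, rfl⟩, smul_eq_mul, mul_one, add_zero] at h1
      · exact h1
      · intro j' _
        rw [map_smul, hd, if_neg (fun h => hbb h.2), smul_zero]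
      · intro j' _ hj'
        rw [map_smul, hd, if_neg (fun h => hj' h.1.symm), smul_zero]
      · intro h
        exact absurd (Finset.mem_univ j) h
    · have h1 := congrArg (lam j b') hc'
      rw [map_add, map_sum, map_sum, map_zero,
        Finset.sum_eq_zero (s := Finset.univ) (f := fun j' => lam j b' (c (Sum.inl j') • e j' b)),
        Finset.sum_eq_single j,
        map_smul, hd, if_pos ⟨rfl, rfl⟩, smul_eq_mul, mul_one, zero_add] at h1
      · exact h1
      · intro j' _ hj'
        rw [map_smul, hd, if_neg (fun h => hj' h.1.symm), smul_zero]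
      · intro h
        exact absurd (Finset.mem_univ j) h
      · intro j' _
        rw [map_smul, hd, if_neg (fun h => hbb h.2.symm), smul_zero]
  have hspan : Submodule.span (ZMod 2) (Set.range v) ≤ AB e b ⊔ AB e b' := by
    rw [Submodule.span_le]
    rintro _ ⟨j | j, rfl⟩
    · exact Submodule.mem_sup_left (Submodule.subset_span ⟨j, rfl⟩)
    · exact Submodule.mem_sup_right (Submodule.subset_span ⟨j, rfl⟩)
  have hv2 : LinearIndependent (ZMod 2) (W.mkQ ∘ v) := by
    refine hv.map ?_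
    rw [Submodule.ker_mkQ]
    exact (hW.mono_right hspan).symm
  obtain ⟨g, hg⟩ := LinearMap.exists_extend
    ((Finsupp.linearCombination (ZMod 2) (Sum.elim γ γ : Fin m ⊕ Fin m → Γ)) ∘ₗ
      hv2.repr)
  have hval : ∀ i, g (W.mkQ (v i)) = (Sum.elim γ γ : Fin m ⊕ Fin m → Γ) i := by
    intro i
    have hmem : W.mkQ (v i) ∈ Submodule.span (ZMod 2) (Set.range (W.mkQ ∘ v)) :=
      Submodule.subset_span ⟨i, rfl⟩
    have h1 := LinearMap.congr_fun hg ⟨W.mkQ (v i), hmem⟩
    have h2 : hv2.repr ⟨W.mkQ (v i), hmem⟩ = Finsupp.single i 1 :=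
      hv2.repr_eq_single i _ rfl
    have h3 : (Finsupp.linearCombination (ZMod 2) (Sum.elim γ γ : Fin m ⊕ Fin m → Γ))
        (hv2.repr ⟨W.mkQ (v i), hmem⟩) = (Sum.elim γ γ : Fin m ⊕ Fin m → Γ) i := by
      rw [h2, Finsupp.linearCombination_single, one_smul]
    rw [← h3]
    exact h1
  refine ⟨g ∘ₗ W.mkQ, fun j => hval (Sum.inl j), fun j => hval (Sum.inr j), fun w hw => ?_⟩
  show g (W.mkQ w) = 0
  rw [(Submodule.Quotient.mk_eq_zero W).2 hw |> fun h => (h : W.mkQ w = 0), map_zero]

/-- The linear map `x ↦ g x` at the place `(b, b')`. -/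
def zmap2 (g : A →ₗ[ZMod 2] Γ) (b b' : Fin N) : A →ₗ[ZMod 2] Mat N Γ where
  toFun x := fun i j => if i = b ∧ j = b' then g x else 0
  map_add' x y := by
    funext i j
    by_cases h : i = b ∧ j = b'
    · simp only [h, and_self, if_true, map_add, Pi.add_apply]
    · simp only [h, if_false, Pi.add_apply, add_zero]
  map_smul' a x := by
    funext i j
    by_cases h : i = b ∧ j = b'
    · simp only [h, and_self, if_true, map_smul, Pi.smul_apply, RingHom.id_apply]
    · simp only [h, if_false, Pi.smul_apply, RingHom.id_apply, smul_zero]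

theorem isM_zmap2 {e : Fin N → A} {bs : Fin N} {γ : Γ} {b b' : Fin N}
    {M : A →ₗ[ZMod 2] Mat N Γ} (hM : IsM e bs γ b M) (g : A →ₗ[ZMod 2] Γ)
    (hg : g (e b) = γ) (hg' : g (e b') = γ) : IsM e bs γ b' (M + zmap2 g b b') := by
  have hgg : g (e b + e b') = 0 := by rw [map_add, hg, hg', two_self]
  have hgg' : g (e b' + e b) = 0 := by rw [map_add, hg, hg', two_self]
  refine ⟨?_, ?_⟩
  · intro i j hij
    rw [LinearMap.add_apply, hat_add, hM.1 i j hij, zero_add]
    show (if i = b ∧ j = b' then g (e i + e j) else 0) +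
      (if j = b ∧ i = b' then g (e i + e j) else 0) = 0
    by_cases h2 : i = b ∧ j = b'
    · have h3 : g (e i + e j) = 0 := by rw [h2.1, h2.2, hgg]
      rw [h3]
      simp
    · by_cases h4 : j = b ∧ i = b'
      · have h3 : g (e i + e j) = 0 := by rw [h4.1, h4.2, hgg']
        rw [h3]
        simp
      · rw [if_neg h2, if_neg h4, add_zero]
  · intro i
    have h5 : ∀ j, hat ((M + zmap2 g b b') (e i)) i j = hat (M (e i)) i j +
        ((if i = b ∧ j = b' then g (e i) else 0) +
        (if j = b ∧ i = b' then g (e i) else 0)) := by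
      intro j
      rw [LinearMap.add_apply, hat_add]
      rfl
    rw [Finset.sum_congr rfl fun j _ => h5 j, Finset.sum_add_distrib, hM.2 i,
      Finset.sum_add_distrib]
    have h6 : ∑ j, (if i = b ∧ j = b' then g (e i) else (0 : Γ)) =
        if i = b then γ else 0 := by
      by_cases hi : i = b
      · rw [if_pos hi, Finset.sum_eq_single b']
        · rw [if_pos ⟨hi, rfl⟩, hi, hg]
        · intro j _ hj
          rw [if_neg (fun h => hj h.2)]
        · intro h
          exact absurd (Finset.mem_univ b') h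
      · rw [if_neg hi]
        refine Finset.sum_eq_zero fun j _ => ?_
        rw [if_neg (fun h => hi h.1)]
    have h7 : ∑ j, (if j = b ∧ i = b' then g (e i) else (0 : Γ)) =
        if i = b' then γ else 0 := by
      by_cases hi : i = b'
      · rw [if_pos hi, Finset.sum_eq_single b]
        · rw [if_pos ⟨rfl, hi⟩, hi, hg']
        · intro j _ hj
          rw [if_neg (fun h => hj h.1)]
        · intro h
          exact absurd (Finset.mem_univ b) h
      · rw [if_neg hi]
        refine Finset.sum_eq_zero fun j _ => ?_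
        rw [if_neg (fun h => hi h.2)]
    rw [h6, h7]
    have h8 := two_self (if i = b then γ else (0 : Γ))
    calc (if i = bs then γ else 0) + (if i = b then γ else 0) +
        ((if i = b then γ else 0) + (if i = b' then γ else 0)) =
        (if i = bs then γ else 0) + ((if i = b then γ else 0) + (if i = b then γ else 0)) +
          (if i = b' then γ else 0) := by abel
      _ = _ := by rw [h8, add_zero]

theorem extends' {e : Fin m → Fin N → A} {lam : Fin m → Fin N → A →ₗ[ZMod 2] ZMod 2}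
    (hd : IsDual2 e lam) {bs : Fin N} {γ : Fin m → Γ}
    {b : Fin N} {M : A →ₗ[ZMod 2] Mat N Γ} (hM : IsMs e bs γ b M)
    (W W' : Submodule (ZMod 2) A) (hb : Disjoint W (AB e b))
    (hdim : Module.finrank (ZMod 2) W + Module.finrank (ZMod 2) W' + 1 < N) :
    ∃ (b' : Fin N) (M' : A →ₗ[ZMod 2] Mat N Γ), IsMs e bs γ b' M' ∧ (∀ x ∈ W, M' x = M x) ∧
      Disjoint W' (AB e b') := by
  classical
  let B1 : Finset (Fin N) := Finset.univ.filter fun b' => ¬ Disjoint W' (AB e b')
  let B2 : Finset (Fin N) := Finset.univ.filter fun b' => b' ≠ b ∧ ¬ Disjoint W (AB e b ⊔ AB e b')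
  have hB1 : B1.card ≤ Module.finrank (ZMod 2) W' := by
    have hex : ∀ b' : Fin N, ∃ w : A, b' ∈ B1 → (w ∈ W' ∧ w ∈ AB e b' ∧ w ≠ 0) := by
      intro b'
      by_cases h : b' ∈ B1
      · have h1 := (Finset.mem_filter.1 h).2
        rw [Submodule.disjoint_def] at h1
        push Not at h1
        obtain ⟨w, hw1, hw2, hw3⟩ := h1
        exact ⟨w, fun _ => ⟨hw1, hw2, hw3⟩⟩
      · exact ⟨0, fun h' => absurd h' h⟩
    choose w hw using hex
    refine card_le_of_lam (lam := lam) W' B1 w (fun b' hb' => (hw b' hb').1) ?_ ?_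
    · intro b' hb'
      exact hd.exists_ne (hw b' hb').2.1 (hw b' hb').2.2
    · intro b1 hb1 b2 hb2 hne j
      exact hd.zero_of_ne hne j (hw b1 hb1).2.1
  have hB2 : B2.card ≤ Module.finrank (ZMod 2) W := by
    have hex : ∀ b' : Fin N, ∃ w u u' : A, b' ∈ B2 →
        (w ∈ W ∧ u ∈ AB e b ∧ u' ∈ AB e b' ∧ u + u' = w ∧ u' ≠ 0) := by
      intro b'
      by_cases h : b' ∈ B2
      · have h1 := (Finset.mem_filter.1 h).2.2
        rw [Submodule.disjoint_def] at h1
        push Not at h1
        obtain ⟨w, hw1, hw2, hw3⟩ := h1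
        obtain ⟨u, hu, u', hu', huu⟩ := Submodule.mem_sup.1 hw2
        refine ⟨w, u, u', fun _ => ⟨hw1, hu, hu', huu, ?_⟩⟩
        rintro rfl
        rw [add_zero] at huu
        subst huu
        exact hw3 ((Submodule.disjoint_def.1 hb) u hw1 hu)
      · exact ⟨0, 0, 0, fun h' => absurd h' h⟩
    choose w u u' hw using hex
    refine card_le_of_lam (lam := lam) W B2 w (fun b' hb' => (hw b' hb').1) ?_ ?_
    · intro b' hb'
      obtain ⟨_, h2, h3, h4, h5⟩ := hw b' hb'
      obtain ⟨j, hj⟩ := hd.exists_ne h3 h5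
      refine ⟨j, ?_⟩
      rw [← h4, map_add, hd.zero_of_ne (Finset.mem_filter.1 hb').2.1 j h2, zero_add]
      exact hj
    · intro b1 hb1 b2 hb2 hne j
      obtain ⟨_, h2, h3, h4, h5⟩ := hw b1 hb1
      rw [← h4, map_add, hd.zero_of_ne (Finset.mem_filter.1 hb2).2.1 j h2,
        hd.zero_of_ne hne j h3, add_zero]
  obtain ⟨b', hb'⟩ : ∃ b', b' ∉ insert b (B1 ∪ B2) := by
    by_contra hcon
    push Not at hcon
    have h1 : (Finset.univ : Finset (Fin N)) ⊆ insert b (B1 ∪ B2) := fun x _ => hcon x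
    have h2 := Finset.card_le_card h1
    have h3 := Finset.card_insert_le b (B1 ∪ B2)
    have h4 := Finset.card_union_le B1 B2
    rw [Finset.card_univ, Fintype.card_fin] at h2
    omega
  rw [Finset.mem_insert, Finset.mem_union, not_or, not_or] at hb'
  obtain ⟨h1, h2, h3⟩ := hb'
  have h2' : Disjoint W' (AB e b') := by
    by_contra h
    exact h2 (Finset.mem_filter.2 ⟨Finset.mem_univ _, h⟩)
  have h3' : Disjoint W (AB e b ⊔ AB e b') := by
    by_contra h
    exact h3 (Finset.mem_filter.2 ⟨Finset.mem_univ _, h1, h⟩)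
  obtain ⟨g, hg1, hg2, hg3⟩ := exists_functional2 hd γ W (Ne.symm h1) h3'
  refine ⟨b', M + zmap2 g b b', fun j => isM_zmap2 (hM j) g (hg1 j) (hg2 j), ?_, h2'⟩
  intro x hx
  rw [LinearMap.add_apply]
  have : zmap2 g b b' x = 0 := by
    funext i j
    show (if i = b ∧ j = b' then g x else 0) = 0
    rw [hg3 x hx, ite_self]
  rw [this, add_zero]

/-! ### The WL method -/

/-- The relation between tuples kept by the WL method. -/
def Goods {k : ℕ} (e : Fin m → Fin N → A) (bs : Fin N) (γ : Fin m → Γ)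
    (S S' : Fin k → QQ N A Γ × QQ N A Γ) : Prop :=
  ∃ (b : Fin N) (M : A →ₗ[ZMod 2] Mat N Γ), IsMs e bs γ b M ∧ (∀ i, S' i = sh2 M (S i)) ∧
    Disjoint (Submodule.span (ZMod 2) (Set.range (comps S))) (AB e b)

theorem isoType_goods {k : ℕ} {e : Fin m → Fin N → A}
    {lam : Fin m → Fin N → A →ₗ[ZMod 2] ZMod 2} (hd : IsDual2 e lam)
    {bs : Fin N} {τ τ' : Fin m → Γ}
    (h : A → A → Γ) {S S' : Fin k → QQ N A Γ × QQ N A Γ}
    (hg : Goods e bs (fun j => τ j + τ' j) S S') :
    isoType (GS e bs h τ) k S = isoType (GS e bs h τ') k S' := by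
  obtain ⟨b, M, hM, hS, hb⟩ := hg
  have he : ∀ j, Function.Injective (e j) := fun j _ _ h => (hd.isDual j).inj h
  have hcell : ∀ i j, (S i).1.1 ≠ e j b := by
    intro i j hi
    refine (hd.isDual j).ne_zero b ((Submodule.disjoint_def.1 hb) (e j b) ?_ ?_)
    · rw [← hi]
      exact Submodule.subset_span ⟨Sum.inl i, rfl⟩
    · exact Submodule.subset_span ⟨j, rfl⟩
  unfold isoType
  refine Prod.ext ?_ ?_
  · funext i j
    show (S i = S j) = (S' i = S' j)
    rw [hS i, hS j]
    exact propext ⟨fun h' => by rw [h'], fun h' => sh2_inj M h'⟩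
  · funext i j
    show (S i ≠ S j ∧ ∃ l, co (FS e bs h τ) l (S i) = co (FS e bs h τ) l (S j)) =
      (S' i ≠ S' j ∧ ∃ l, co (FS e bs h τ') l (S' i) = co (FS e bs h τ') l (S' j))
    rw [hS i, hS j]
    refine propext (and_congr ?_ (exists_congr fun l => ?_))
    · exact not_congr ⟨fun h' => by rw [h'], fun h' => sh2_inj M h'⟩
    · rw [co_sh2s hM he h _ (hcell i), co_sh2s hM he h _ (hcell j)]
      exact ⟨fun h' => by rw [h'], fun h' => sh_inj M h'⟩

theorem wl_goods {k : ℕ} {e : Fin m → Fin N → A}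
    {lam : Fin m → Fin N → A →ₗ[ZMod 2] ZMod 2} (hd : IsDual2 e lam)
    {bs : Fin N} {τ τ' : Fin m → Γ} (hN : 4 * k + 3 < N) (h : A → A → Γ) (t : ℕ) :
    ∀ S S' : Fin k → QQ N A Γ × QQ N A Γ, Goods e bs (fun j => τ j + τ' j) S S' →
      wl (GS e bs h τ) k t S = wl (GS e bs h τ') k t S' := by
  induction t with
  | zero =>
    intro S S' hg
    exact isoType_goods hd h hg
  | succ t ih =>
    intro S S' hg
    refine Prod.ext (ih S S' hg) ?_
    obtain ⟨b, M, hM, hS, hb⟩ := hg
    have hex : ∀ xy : A × A, ∃ (b' : Fin N) (M' : A →ₗ[ZMod 2] Mat N Γ),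
        IsMs e bs (fun j => τ j + τ' j) b' M' ∧
        (∀ x ∈ Submodule.span (ZMod 2) (Set.range (comps S)), M' x = M x) ∧
        Disjoint (Submodule.span (ZMod 2)
          (Set.range (Sum.elim (comps S) ![xy.1, xy.2] : (Fin k ⊕ Fin k) ⊕ Fin 2 → A)))
          (AB e b') := by
      intro xy
      refine extends' hd hM _ _ hb ?_
      have h1 := finrank_range_le_card (R := ZMod 2)
        (Sum.elim (comps S) ![xy.1, xy.2] : (Fin k ⊕ Fin k) ⊕ Fin 2 → A)
      have h2 := finrank_range_le_card (R := ZMod 2) (comps S)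
      rw [Fintype.card_sum, Fintype.card_sum, Fintype.card_fin, Fintype.card_fin] at h1
      rw [Fintype.card_sum, Fintype.card_fin] at h2
      unfold Set.finrank at h1 h2
      omega
    choose b' M' hM' hagree hb' using hex
    have hinv : Function.Involutive
        (fun p : QQ N A Γ × QQ N A Γ => sh2 (M' (p.1.1, p.2.1)) p) := by
      intro p
      exact sh2_sh2 _ p
    refine map_univ_eq hinv.toPerm _ _ fun x => ?_
    funext i
    refine ih _ _ ?_
    refine ⟨b' (x.1.1, x.2.1), M' (x.1.1, x.2.1), hM' _, ?_, ?_⟩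
    · intro j
      by_cases hj : j = i
      · subst hj
        rw [Function.update_self, Function.update_self]
        rfl
      · rw [Function.update_of_ne hj, Function.update_of_ne hj, hS j]
        have m1 : M' (x.1.1, x.2.1) (S j).1.1 = M (S j).1.1 :=
          hagree _ _ (Submodule.subset_span ⟨Sum.inl j, rfl⟩)
        have m2 : M' (x.1.1, x.2.1) (S j).2.1 = M (S j).2.1 :=
          hagree _ _ (Submodule.subset_span ⟨Sum.inr j, rfl⟩)
        unfold sh2 sh
        rw [m1, m2]
    · refine (hb' (x.1.1, x.2.1)).mono_left (Submodule.span_mono ?_)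
      rintro _ ⟨j | j, rfl⟩
      · by_cases hj : j = i
        · subst hj
          refine ⟨Sum.inr 0, ?_⟩
          show x.1.1 = _
          simp only [comps, Sum.elim_inl]
          rw [Function.update_self]
        · refine ⟨Sum.inl (Sum.inl j), ?_⟩
          show (S j).1.1 = (Function.update S i x j).1.1
          rw [Function.update_of_ne hj]
      · by_cases hj : j = i
        · subst hj
          refine ⟨Sum.inr 1, ?_⟩
          show x.2.1 = (Function.update S j x j).2.1
          rw [Function.update_self]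
        · refine ⟨Sum.inl (Sum.inr j), ?_⟩
          show (S j).2.1 = (Function.update S i x j).2.1
          rw [Function.update_of_ne hj]

theorem wlEquivalent_GS {k : ℕ} {e : Fin m → Fin N → A}
    {lam : Fin m → Fin N → A →ₗ[ZMod 2] ZMod 2} (hd : IsDual2 e lam)
    {bs : Fin N} (τ τ' : Fin m → Γ) (hN : 4 * k + 3 < N) (h : A → A → Γ) :
    WLEquivalent k (GS e bs h τ) (GS e bs h τ') := by
  have hex : ∀ v : Fin k ⊕ Fin k → A, ∃ (b' : Fin N) (M' : A →ₗ[ZMod 2] Mat N Γ),
      IsMs e bs (fun j => τ j + τ' j) b' M' ∧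
      (∀ x ∈ (⊥ : Submodule (ZMod 2) A), M' x = (0 : A →ₗ[ZMod 2] Mat N Γ) x) ∧
      Disjoint (Submodule.span (ZMod 2) (Set.range v)) (AB e b') := by
    intro v
    refine extends' hd (fun j => isM_zero (e j) bs (τ j + τ' j)) ⊥ _ disjoint_bot_left ?_
    have h1 := finrank_range_le_card (R := ZMod 2) v
    rw [Fintype.card_sum, Fintype.card_fin] at h1
    unfold Set.finrank at h1
    rw [finrank_bot]
    omega
  choose b' M' hM' _ hb' using hex
  have hinv : Function.Involutive
      (fun S : Fin k → QQ N A Γ × QQ N A Γ => fun i => sh2 (M' (comps S)) (S i)) := by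
    intro S
    funext i
    show sh2 (M' (comps fun i => sh2 (M' (comps S)) (S i))) (sh2 (M' (comps S)) (S i)) = S i
    rw [comps_sh2, sh2_sh2]
  refine ⟨hinv.toPerm, fun t S => wl_goods hd hN h t S _ ?_⟩
  exact ⟨b' (comps S), M' (comps S), hM' _, fun i => rfl, hb' _⟩

end

end Pool.Agent.KS6_51.WQ
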