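import Mathlib
import Pool.Agent.KS6_51.WQ.Loop

/-!
Counting lemmas, and: gauge transformations do not remove the twists.
-/

set_option autoImplicit false
set_option linter.unusedSectionVars false

namespace Pool.Agent.KS6_51.WQ

open Finset Pool.Agent.W185.SRG

section

variable {A Γ : Type} [Fintype A] [DecidableEq A] [Fintype Γ] [DecidableEq Γ]

/-- Few rows are moved. -/
theorem few_bad_rows' (𝓗 : Finset (A → A → Γ)) (K : ℕ) (hΓ : 32 ≤ Fintype.card Γ)
    (hcard : Fintype.card (A → A → Γ) ≤ 𝓗.card * K) (hK : K < 2 ^ (Fintype.card A * Fintype.card A))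
    (X : Finset A) (ψ : A → A) (hX : ∀ x ∈ X, ψ x ≠ x)
    (hdet : ∀ x ∈ X, ∀ h ∈ 𝓗, ∀ h' ∈ 𝓗, (∀ y, h (ψ x) y = h' (ψ x) y) → ∀ y, h x y = h' x y) :
    2 * X.card < Fintype.card A ∨ Fintype.card A = 0 := by
  rcases Nat.eq_zero_or_pos (Fintype.card A) with hA | hA
  · exact Or.inr hA
  left
  have main : ∀ (Z : Finset A) (r : A → ℕ), Z ⊆ X → (∀ x ∈ Z, r (ψ x) < r x) →
      5 * Z.card < Fintype.card A := by
    intro Z r hZX hlt
    have h1 := count_rows 𝓗 K (by omega) hcard Z ψ r hlt
      (fun x hx => hdet x (hZX hx))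
    have h2 : (2 : ℕ) ^ (5 * (Z.card * Fintype.card A)) <
        2 ^ (Fintype.card A * Fintype.card A) := by
      refine lt_of_le_of_lt (le_trans ?_ h1) hK
      rw [pow_mul]
      exact Nat.pow_le_pow_left (by norm_num; exact hΓ) _
    have h3 := (Nat.pow_lt_pow_iff_right (by norm_num : 1 < 2)).1 h2
    have h4 : 5 * Z.card * Fintype.card A < Fintype.card A * Fintype.card A := by
      rw [mul_assoc]
      exact h3
    exact lt_of_mul_lt_mul_right h4 (Nat.zero_le _)
  let r : A → ℕ := fun x => (Fintype.equivFin A x : ℕ)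
  let r' : A → ℕ := fun x => Fintype.card A - (Fintype.equivFin A x : ℕ)
  have hr : ∀ x y, r x = r y → x = y := fun x y h =>
    (Fintype.equivFin A).injective (Fin.ext h)
  have hr' : ∀ x, r x < Fintype.card A := fun x => (Fintype.equivFin A x).2
  have h1 := main (X.filter fun x => r (ψ x) < r x) r (Finset.filter_subset _ _)
    fun x hx => (Finset.mem_filter.1 hx).2
  have h2 := main (X.filter fun x => r x < r (ψ x)) r' (Finset.filter_subset _ _) (by
    intro x hx
    have h3 := (Finset.mem_filter.1 hx).2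
    have h4 := hr' (ψ x)
    show Fintype.card A - r (ψ x) < Fintype.card A - r x
    omega)
  have h3 : X ⊆ (X.filter fun x => r (ψ x) < r x) ∪ (X.filter fun x => r x < r (ψ x)) := by
    intro x hx
    have hne : r (ψ x) ≠ r x := fun h => hX x hx (hr _ _ h)
    rcases lt_or_gt_of_ne hne with h | h
    · exact Finset.mem_union_left _ (Finset.mem_filter.2 ⟨hx, h⟩)
    · exact Finset.mem_union_right _ (Finset.mem_filter.2 ⟨hx, h⟩)
  have h4 := (Finset.card_le_card h3).trans (Finset.card_union_le _ _)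
  omega

/-- The differences of the members of a large family are not all in a proper subgroup. -/
theorem full_differences' {Γ : Type} [Fintype Γ] [DecidableEq Γ] [AddCommGroup Γ]
    (𝓗 : Finset (A → A → Γ)) (K : ℕ)
    (hcard : Fintype.card (A → A → Γ) ≤ 𝓗.card * K)
    (hK : K < 2 ^ (Fintype.card A * Fintype.card A))
    (Γ0 : AddSubgroup Γ) (hdiff : ∀ h ∈ 𝓗, ∀ h' ∈ 𝓗, ∀ x y, h x y - h' x y ∈ Γ0) :
    Γ0 = ⊤ := by
  classical
  by_contra hne
  have hcard0 : 2 * Nat.card Γ0 ≤ Nat.card Γ := by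
    have h1 : Nat.card Γ0 ∣ Nat.card Γ := AddSubgroup.card_addSubgroup_dvd_card Γ0
    have h2 : Nat.card Γ0 ≠ Nat.card Γ := fun h => hne (AddSubgroup.eq_top_of_card_eq Γ0 h)
    obtain ⟨c, hc⟩ := h1
    have hpos : 0 < Nat.card Γ := Nat.card_pos
    have hc0 : c ≠ 0 := by
      rintro rfl
      omega
    have hc1 : c ≠ 1 := by
      rintro rfl
      omega
    have hc2 : 2 ≤ c := by omega
    rw [hc, mul_comm]
    exact Nat.mul_le_mul_left _ hc2
  have hne𝓗 : 𝓗.Nonempty := by
    rw [Finset.nonempty_iff_ne_empty]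
    rintro rfl
    rw [Finset.card_empty, zero_mul] at hcard
    have : 0 < Fintype.card (A → A → Γ) := Fintype.card_pos
    omega
  obtain ⟨h0, hh0⟩ := hne𝓗
  have h1 : 𝓗.card ≤ Fintype.card (A → A → Γ0) := by
    rw [← Finset.card_univ]
    refine Finset.card_le_card_of_injOn
      (fun h => if hh : h ∈ 𝓗 then (fun x y => ⟨h x y - h0 x y, hdiff h hh h0 hh0 x y⟩) else 0)
      (fun _ _ => Finset.mem_coe.2 (Finset.mem_univ _)) ?_
    intro h hh h' hh' heq
    have hh1 := Finset.mem_coe.1 hh
    have hh2 := Finset.mem_coe.1 hh'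
    simp only [dif_pos hh1, dif_pos hh2] at heq
    funext x y
    have h3 := congrArg Subtype.val (congrFun (congrFun heq x) y)
    have h4 : h x y - h0 x y = h' x y - h0 x y := h3
    exact sub_left_injective h4
  have h2 : Fintype.card (A → A → Γ0) = Nat.card Γ0 ^ (Fintype.card A * Fintype.card A) := by
    rw [Fintype.card_fun, Fintype.card_fun, ← pow_mul, Nat.card_eq_fintype_card]
  have h3 : Nat.card Γ0 ^ (Fintype.card A * Fintype.card A) *
      2 ^ (Fintype.card A * Fintype.card A) ≤ Fintype.card (A → A → Γ) := by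
    rw [Fintype.card_fun, Fintype.card_fun, ← pow_mul, ← mul_pow]
    refine Nat.pow_le_pow_left ?_ _
    rw [← Nat.card_eq_fintype_card (α := Γ), mul_comm]
    exact hcard0
  have h4 := (h3.trans hcard).trans (Nat.mul_le_mul_right K (h1.trans h2.le))
  have hpos : 0 < Nat.card Γ0 := Nat.card_pos
  have h5 := Nat.le_of_mul_le_mul_left h4 (pow_pos hpos _)
  omega

end

section

variable {m N : ℕ} {A Γ : Type} [AddCommGroup A] [Module (ZMod 2) A] [Fintype A] [DecidableEq A]
  [AddCommGroup Γ] [Module (ZMod 2) Γ] [Fintype Γ] [DecidableEq Γ]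

theorem IsDual2.lam_TT {e : Fin m → Fin N → A} {lam : Fin m → Fin N → A →ₗ[ZMod 2] ZMod 2}
    (hd : IsDual2 e lam) {j j' : Fin m} (hj : j ≠ j') (i : Fin N) {x : A} (hx : x ∈ TT (e j')) :
    lam j i x = 0 := by
  unfold TT at hx
  rw [Finset.mem_insert, Finset.mem_union, Finset.mem_image, Finset.mem_image] at hx
  rcases hx with rfl | ⟨l, -, rfl⟩ | ⟨l, -, rfl⟩
  · exact map_zero _
  · rw [hd, if_neg (fun h => hj h.1)]
  · rw [map_add, hd, hd, if_neg (fun h => hj h.1), if_neg (fun h => hj h.1), add_zero]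

theorem IsDual2.single_notMem {e : Fin m → Fin N → A}
    {lam : Fin m → Fin N → A →ₗ[ZMod 2] ZMod 2}
    (hd : IsDual2 e lam) {j j' : Fin m} (hj : j ≠ j') (i : Fin N) : e j i ∉ TT (e j') := by
  intro h
  have h1 := hd.lam_TT hj i h
  rw [hd, if_pos ⟨rfl, rfl⟩] at h1
  exact absurd h1 (by decide)

theorem IsDual2.pair_notMem {e : Fin m → Fin N → A}
    {lam : Fin m → Fin N → A →ₗ[ZMod 2] ZMod 2}
    (hd : IsDual2 e lam) {j j' : Fin m} (hj : j ≠ j') {i l : Fin N} (hil : i ≠ l) :
    e j i + e j l ∉ TT (e j') := by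
  intro h
  have h1 := hd.lam_TT hj i h
  rw [map_add, hd, hd, if_pos ⟨rfl, rfl⟩, if_neg (fun h => hil h.2), add_zero] at h1
  exact absurd h1 (by decide)

theorem phs_zero_pair {e : Fin m → Fin N → A} {lam : Fin m → Fin N → A →ₗ[ZMod 2] ZMod 2}
    (hd : IsDual2 e lam) (t : Fin m) {i j : Fin N} (hij : i < j) (c : Mat N Γ) :
    phs e 0 (e t i + e t j) c = hat c i j := by
  unfold phs
  rw [Finset.sum_eq_single t, phi_zero_pair (hd.isDual t) hij]
  · intro t' _ ht'
    exact phi_default _ (Or.inl ((hd.isDual t).add_ne_zero hij.ne))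
      (Or.inr (hd.pair_notMem (Ne.symm ht') hij.ne)) c
  · intro h
    exact absurd (Finset.mem_univ t) h

theorem phs_pair_zero {e : Fin m → Fin N → A} {lam : Fin m → Fin N → A →ₗ[ZMod 2] ZMod 2}
    (hd : IsDual2 e lam) (t : Fin m) {i j : Fin N} (hij : i < j) (c : Mat N Γ) :
    phs e (e t i + e t j) 0 c = hat c i j := by
  unfold phs
  rw [Finset.sum_eq_single t, phi_pair_zero (hd.isDual t) hij]
  · intro t' _ ht'
    exact phi_default _ (Or.inr (hd.pair_notMem (Ne.symm ht') hij.ne))
      (Or.inl ((hd.isDual t).add_ne_zero hij.ne)) c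
  · intro h
    exact absurd (Finset.mem_univ t) h

theorem phs_single_zero {e : Fin m → Fin N → A} {lam : Fin m → Fin N → A →ₗ[ZMod 2] ZMod 2}
    (hd : IsDual2 e lam) (t : Fin m) (i : Fin N) (c : Mat N Γ) :
    phs e (e t i) 0 c = ∑ j, hat c i j := by
  unfold phs
  rw [Finset.sum_eq_single t, phi_single_zero (hd.isDual t)]
  · intro t' _ ht'
    exact phi_default _ (Or.inr (hd.single_notMem (Ne.symm ht') i))
      (Or.inl ((hd.isDual t).ne_zero i)) c
  · intro h
    exact absurd (Finset.mem_univ t) h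

/-- The exceptional elements. -/
def TTs (e : Fin m → Fin N → A) : Finset A := insert 0 (Finset.univ.biUnion fun j => TT (e j))

theorem card_TTs (e : Fin m → Fin N → A) : (TTs e).card ≤ 1 + m * (1 + N + N * N) := by
  unfold TTs
  refine (Finset.card_insert_le _ _).trans ?_
  have h1 : (Finset.univ.biUnion fun j => TT (e j)).card ≤ m * (1 + N + N * N) := by
    refine Finset.card_biUnion_le.trans ?_
    refine (Finset.sum_le_sum fun j _ => card_TT (e j)).trans ?_
    rw [Finset.sum_const, Finset.card_univ, Fintype.card_fin, smul_eq_mul]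
  omega

theorem zero_mem_TTs (e : Fin m → Fin N → A) : (0 : A) ∈ TTs e := Finset.mem_insert_self _ _

theorem mem_TTs {e : Fin m → Fin N → A} {j : Fin m} {x : A} (hx : x ∈ TT (e j)) : x ∈ TTs e :=
  Finset.mem_insert_of_mem (Finset.mem_biUnion.2 ⟨j, Finset.mem_univ _, hx⟩)

theorem phs_default (e : Fin m → Fin N → A) {x y : A} (h1 : y ≠ 0 ∨ x ∉ TTs e)
    (h2 : x ≠ 0 ∨ y ∉ TTs e) (c : Mat N Γ) : phs e x y c = 0 := by
  unfold phs
  refine Finset.sum_eq_zero fun j _ => phi_default (e j) ?_ ?_ c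
  · exact h1.imp id fun h h' => h (mem_TTs h')
  · exact h2.imp id fun h h' => h (mem_TTs h')

theorem no_gauges {e : Fin m → Fin N → A} {lam : Fin m → Fin N → A →ₗ[ZMod 2] ZMod 2}
    (hd : IsDual2 e lam) (bs : Fin N) (γ : Fin m → Γ)
    (hA : 2 * (1 + m * (1 + N + N * N)) < Fintype.card A)
    (m1 m2 m3 : A → Mat N Γ) (s1 s2 s3 : A → Γ)
    (hm : ∀ x y, m3 (x + y) = m1 x + m2 y)
    (hs : ∀ x y, s1 x + s2 y + s3 (x + y) =
      phs e x y (m1 x) + ∑ j, (if x = e j bs ∧ y = 0 then γ j else 0)) : γ = 0 := by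
  -- the default cells
  have hdef : ∀ x y, (y ≠ 0 ∨ x ∉ TTs e) → (x ≠ 0 ∨ y ∉ TTs e) →
      s1 x + s2 y + s3 (x + y) = 0 := by
    intro x y h1 h2
    rw [hs x y, phs_default e h1 h2, zero_add]
    refine Finset.sum_eq_zero fun j _ => ?_
    rw [if_neg]
    rintro ⟨rfl, hy⟩
    rcases h1 with h | h
    · exact h hy
    · exact h (mem_TTs (single_mem_TT (e j) bs))
  -- all cells
  have hall : ∀ x y, phs e x y (m1 x) + ∑ j, (if x = e j bs ∧ y = 0 then γ j else 0) = 0 := by
    intro x y
    rw [← hs x y]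
    obtain ⟨d, hd1, hd2⟩ : ∃ d, x + d ∉ TTs e ∧ y + d ∉ TTs e := by
      by_contra hcon
      push Not at hcon
      have h1 : (Finset.univ : Finset A) ⊆
          (TTs e).image (fun t => t + x) ∪ (TTs e).image (fun t => t + y) := by
        intro d _
        by_cases h : x + d ∈ TTs e
        · refine Finset.mem_union_left _ (Finset.mem_image.2 ⟨x + d, h, ?_⟩)
          rw [add_comm x d, add_assoc, two_self, add_zero]
        · refine Finset.mem_union_right _ (Finset.mem_image.2 ⟨y + d, hcon d h, ?_⟩)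
          rw [add_comm y d, add_assoc, two_self, add_zero]
      have h2 := (Finset.card_le_card h1).trans (Finset.card_union_le _ _)
      have h3 : ((TTs e).image (fun t => t + x)).card ≤ (TTs e).card := Finset.card_image_le
      have h4 : ((TTs e).image (fun t => t + y)).card ≤ (TTs e).card := Finset.card_image_le
      have h5 := card_TTs e
      rw [Finset.card_univ] at h2
      omega
    have hx0 : x + d ≠ 0 := fun h => hd1 (h ▸ zero_mem_TTs e)
    have hy0 : y + d ≠ 0 := fun h => hd2 (h ▸ zero_mem_TTs e)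
    have c1 := hdef (x + d) y (Or.inr hd1) (Or.inl hx0)
    have c2 := hdef x (y + d) (Or.inl hy0) (Or.inr hd2)
    have c3 := hdef (x + d) (y + d) (Or.inl hy0) (Or.inl hx0)
    have f1 : x + d + y = x + (y + d) := by abel
    have f2 : x + d + (y + d) = x + y := by
      calc x + d + (y + d) = x + y + (d + d) := by abel
        _ = x + y := by rw [two_self, add_zero]
    rw [f1] at c1
    rw [f2] at c3
    calc s1 x + s2 y + s3 (x + y)
        = (s1 x + s2 y + s3 (x + y)) + 0 + 0 + 0 := by simp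
      _ = (s1 x + s2 y + s3 (x + y)) + (s1 (x + d) + s2 y + s3 (x + (y + d))) +
          (s1 x + s2 (y + d) + s3 (x + (y + d))) + (s1 (x + d) + s2 (y + d) + s3 (x + y)) := by
            rw [c1, c2, c3]
      _ = (s1 x + s1 x) + (s2 y + s2 y) + (s3 (x + y) + s3 (x + y)) +
          (s1 (x + d) + s1 (x + d)) + (s2 (y + d) + s2 (y + d)) +
          (s3 (x + (y + d)) + s3 (x + (y + d))) := by abel
      _ = 0 := by simp [two_self]
  -- `m1` is affine
  have haff : ∀ x y, m1 (x + y) = m1 x + m1 y + m1 0 := by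
    intro x y
    have a1 := hm x y
    have a2 := hm (x + y) 0
    have a3 := hm y 0
    have a4 := hm 0 y
    rw [add_zero] at a2 a3
    rw [zero_add] at a4
    have b1 : m1 x + m2 y = m1 (x + y) + m2 0 := a1.symm.trans a2
    have b2 : m1 y + m2 0 = m1 0 + m2 y := a3.symm.trans a4
    have b3 : m1 (x + y) = m1 x + m2 y + m2 0 := add_eq_of_two b1.symm
    have b4 : m2 y = m1 0 + (m1 y + m2 0) := by
      rw [b2, ← add_assoc, two_self, zero_add]
    rw [b3, b4]
    calc m1 x + (m1 0 + (m1 y + m2 0)) + m2 0 = m1 x + m1 y + m1 0 + (m2 0 + m2 0) := by abel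
      _ = _ := by rw [two_self, add_zero]
  funext t
  -- the values of the alternations
  have h0lt : ∀ i j, i < j → hat (m1 0) i j = 0 := by
    intro i j hij
    have h1 := hall 0 (e t i + e t j)
    rw [phs_zero_pair hd t hij, Finset.sum_eq_zero, add_zero] at h1
    · exact h1
    · intro j' _
      rw [if_neg]
      rintro ⟨h2, -⟩
      exact (hd.isDual j').ne_zero bs h2.symm
  have hTlt : ∀ i j, i < j → hat (m1 (e t i)) i j = hat (m1 (e t j)) j i := by
    intro i j hij
    have h1 := hall (e t i + e t j) 0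
    rw [phs_pair_zero hd t hij, Finset.sum_eq_zero, add_zero, haff, hat_add, hat_add,
      h0lt i j hij, add_zero] at h1
    · rw [eq_of_add_eq_zero_two h1, hat_symm]
    · intro j' _
      rw [if_neg]
      rintro ⟨h2, -⟩
      by_cases hj : t = j'
      · subst hj
        exact (hd.isDual t).ne_add hij.ne h2.symm
      · exact hd.pair_notMem hj hij.ne (h2 ▸ single_mem_TT (e j') bs)
  have hT : ∀ i j, hat (m1 (e t i)) i j = hat (m1 (e t j)) j i := by
    intro i j
    rcases lt_trichotomy i j with h | h | h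
    · exact hTlt i j h
    · rw [h]
    · exact (hTlt j i h).symm
  have hrow : ∀ i, ∑ j, hat (m1 (e t i)) i j + (if i = bs then γ t else 0) = 0 := by
    intro i
    have h1 := hall (e t i) 0
    rw [phs_single_zero hd, Finset.sum_eq_single t] at h1
    · by_cases hi : i = bs
      · rw [if_pos hi]
        rwa [if_pos ⟨congrArg (e t) hi, rfl⟩] at h1
      · rw [if_neg hi]
        rwa [if_neg (fun h => hi ((hd.isDual t).inj h.1))] at h1
    · intro j' _ hj'
      rw [if_neg]
      rintro ⟨h2, -⟩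
      exact hd.single_notMem (Ne.symm hj') i (h2 ▸ single_mem_TT (e j') bs)
    · intro h
      exact absurd (Finset.mem_univ t) h
  have hsum : ∑ i, (∑ j, hat (m1 (e t i)) i j + (if i = bs then γ t else 0)) = 0 :=
    Finset.sum_eq_zero fun i _ => hrow i
  rw [Finset.sum_add_distrib, sum_symm_two (fun i j => hat (m1 (e t i)) i j) hT
    (fun i => hat_self _ i), zero_add, Finset.sum_ite_eq', if_pos (Finset.mem_univ _)] at hsum
  exact hsum

end

end Pool.Agent.KS6_51.WQ
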