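import Mathlib
import Pool.Agent.KS6_51.WQ.Rig

/-!
Large families of pairwise non-isomorphic strongly regular graphs which the `k`-dimensional
Weisfeiler-Leman method does not distinguish.
-/

set_option autoImplicit false
set_option linter.unusedSectionVars false

namespace Pool.Agent.KS6_51.WQ

open Finset Pool.Agent.W185.SRG

/-! ### Transport to `Fin n` -/

theorem WLE_of_iso {V W : Type} [Fintype V] [Fintype W] {k : ℕ} {G : SimpleGraph V}
    {H : SimpleGraph W} (φ : G ≃g H) :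
    ∀ (t : ℕ) (S : Fin k → V), wl G k t S = wl H k t (fun i => φ (S i)) := by
  intro t
  induction t with
  | zero =>
    intro S
    refine Prod.ext ?_ ?_
    · funext i j
      exact propext ⟨fun h => congrArg φ h, fun h => φ.injective h⟩
    · funext i j
      exact propext φ.map_adj_iff.symm
  | succ t ih =>
    intro S
    refine Prod.ext (ih S) ?_
    show (Finset.univ : Finset V).val.map (fun x => fun i => wl G k t (Function.update S i x)) =
      (Finset.univ : Finset W).val.map (fun x => fun i => wl H k t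
        (Function.update (fun i => φ (S i)) i x))
    have h1 : (Finset.univ : Finset W).val = (Finset.univ : Finset V).val.map φ := by
      have := congrArg Finset.val (Finset.map_univ_equiv φ.toEquiv)
      rw [← this]
      rfl
    rw [h1, Multiset.map_map]
    congr 1
    funext x
    funext i
    show wl G k t (Function.update S i x) = wl H k t (Function.update (fun i => φ (S i)) i (φ x))
    rw [ih]
    congr 1
    funext j
    by_cases hj : j = i
    · subst hj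
      rw [Function.update_self, Function.update_self]
    · rw [Function.update_of_ne hj, Function.update_of_ne hj]

theorem WLE_congr {V W V' W' : Type} [Fintype V] [Fintype W] [Fintype V'] [Fintype W'] {k : ℕ}
    {G : SimpleGraph V} {H : SimpleGraph W} {G' : SimpleGraph V'} {H' : SimpleGraph W'}
    (φ : G ≃g G') (χ : H ≃g H') (h : WLEquivalent k G H) : WLEquivalent k G' H' := by
  obtain ⟨ψ, hψ⟩ := h
  refine ⟨((Equiv.arrowCongr (Equiv.refl _) φ.toEquiv).symm.trans ψ).trans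
    (Equiv.arrowCongr (Equiv.refl _) χ.toEquiv), fun t S => ?_⟩
  have h1 := WLE_of_iso φ.symm t S
  have h2 := hψ t (fun i => φ.symm (S i))
  have h3 := WLE_of_iso χ t (ψ (fun i => φ.symm (S i)))
  rw [h1, h2, h3]
  rfl

open Classical in
theorem isSRG_iso {V W : Type} [Fintype V] [Fintype W] {G : SimpleGraph V} {H : SimpleGraph W}
    (φ : G ≃g H) {n d l μ : ℕ} (h : G.IsSRGWith n d l μ) : H.IsSRGWith n d l μ := by
  have hcn : ∀ v w : W, Fintype.card (H.commonNeighbors v w) =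
      Fintype.card (G.commonNeighbors (φ.symm v) (φ.symm w)) := by
    intro v w
    refine Fintype.card_congr (Equiv.subtypeEquiv φ.symm.toEquiv fun x => ?_)
    show x ∈ H.commonNeighbors v w ↔ φ.symm x ∈ G.commonNeighbors (φ.symm v) (φ.symm w)
    rw [SimpleGraph.mem_commonNeighbors, SimpleGraph.mem_commonNeighbors,
      φ.symm.map_adj_iff, φ.symm.map_adj_iff]
  have hdeg : ∀ v : W, H.degree v = G.degree (φ.symm v) := by
    intro v
    rw [← SimpleGraph.card_neighborSet_eq_degree, ← SimpleGraph.card_neighborSet_eq_degree]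
    refine Fintype.card_congr (Equiv.subtypeEquiv φ.symm.toEquiv fun x => ?_)
    show x ∈ H.neighborSet v ↔ φ.symm x ∈ G.neighborSet (φ.symm v)
    rw [SimpleGraph.mem_neighborSet, SimpleGraph.mem_neighborSet, φ.symm.map_adj_iff]
  refine ⟨?_, ?_, ?_, ?_⟩
  · rw [← h.card]
    exact (Fintype.card_congr φ.toEquiv).symm
  · intro v
    rw [hdeg]
    exact h.regular _
  · intro v w hvw
    rw [hcn]
    exact h.of_adj _ _ (φ.symm.map_adj_iff.2 hvw)
  · intro v w hne hvw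
    rw [hcn]
    refine h.of_not_adj (fun h' => hne (φ.symm.injective h')) ?_
    rw [φ.symm.map_adj_iff]
    exact hvw

/-! ### The duals -/

/-- The standard vectors. -/
def stdEs {m N a : ℕ} (hmN : m * N ≤ a) (j : Fin m) (i : Fin N) : Fin a → ZMod 2 :=
  Pi.single (Fin.castLE hmN (finProdFinEquiv (j, i))) 1

theorem stdEs_isDual2 {m N a : ℕ} (hmN : m * N ≤ a) :
    IsDual2 (stdEs hmN) (fun j i => LinearMap.proj (Fin.castLE hmN (finProdFinEquiv (j, i)))) := by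
  intro j i j' i'
  show stdEs hmN j' i' (Fin.castLE hmN (finProdFinEquiv (j, i))) = _
  unfold stdEs
  by_cases h : j = j' ∧ i = i'
  · obtain ⟨rfl, rfl⟩ := h
    simp
  · rw [if_neg h, Pi.single_eq_of_ne]
    intro h'
    apply h
    have h1 := finProdFinEquiv.injective (Fin.castLE_injective hmN h')
    exact ⟨congrArg Prod.fst h1, congrArg Prod.snd h1⟩

/-! ### Numerical estimates -/

theorem grow1 (κ j : ℕ) : 3 * ((2 * κ + 10 + j + κ) * 2 ^ κ) + 2 * κ * (2 * κ + 10 + j) <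
    2 ^ (2 * κ + 10 + j) := by
  induction j with
  | zero =>
    have h3 : κ < 2 ^ κ := Nat.lt_two_pow_self
    have h4 : 2 ^ (2 * κ + 10) = 1024 * (2 ^ κ * 2 ^ κ) := by
      rw [pow_add, two_mul, pow_add]
      ring
    rw [add_zero, h4]
    set u := 2 ^ κ with hu
    have hu1 : 1 ≤ u := by omega
    nlinarith
  | succ j ih =>
    have h1 : 2 ^ (2 * κ + 10 + (j + 1)) = 2 * 2 ^ (2 * κ + 10 + j) := by
      rw [← add_assoc, pow_succ]
      ring
    rw [h1]
    have h2 : 3 * ((2 * κ + 10 + (j + 1) + κ) * 2 ^ κ) + 2 * κ * (2 * κ + 10 + (j + 1)) =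
        3 * ((2 * κ + 10 + j + κ) * 2 ^ κ) + 2 * κ * (2 * κ + 10 + j) + (3 * 2 ^ κ + 2 * κ) := by
      ring
    have h3 : 3 * 2 ^ κ + 2 * κ ≤
        3 * ((2 * κ + 10 + j + κ) * 2 ^ κ) + 2 * κ * (2 * κ + 10 + j) := by
      have a1 : 2 ^ κ ≤ (2 * κ + 10 + j + κ) * 2 ^ κ := Nat.le_mul_of_pos_left _ (by omega)
      have a2 : 2 * κ ≤ 2 * κ * (2 * κ + 10 + j) := Nat.le_mul_of_pos_right _ (by omega)
      omega
    rw [h2]
    omega

theorem sq_lt (j : ℕ) : 2 * (9 + j + 1) ^ 2 < 2 ^ (9 + j) := by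
  induction j with
  | zero => norm_num
  | succ j ih =>
    have h1 : 2 ^ (9 + (j + 1)) = 2 * 2 ^ (9 + j) := by
      rw [← add_assoc, pow_succ]
      ring
    rw [h1]
    have h2 : 2 * (9 + (j + 1) + 1) ^ 2 ≤ 2 * (2 * (9 + j + 1) ^ 2) := by
      have e1 : 2 * (2 * (9 + j + 1) ^ 2) = 2 * (9 + (j + 1) + 1) ^ 2 + (158 + 36 * j + 2 * j ^ 2) := by
        ring
      omega
    omega

theorem numeric2 (κ a s m : ℕ) (ha : 2 * κ + 10 ≤ a) (hsm : s * m ≤ κ * a) :
    numData (2 ^ (a + κ)) ((2 ^ s) ^ m) < 2 ^ (2 ^ a * 2 ^ a) := by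
  obtain ⟨j, rfl⟩ := Nat.exists_eq_add_of_le ha
  have h1 : ∀ n : ℕ, (2 ^ n) ^ (2 ^ n) * ((2 ^ n) ^ (2 ^ n) * (2 ^ n) ^ (2 ^ n)) =
      2 ^ (3 * (n * 2 ^ n)) := by
    intro n
    rw [← pow_mul, ← pow_add, ← pow_add]
    congr 1
    ring
  unfold numData
  rw [h1]
  have h8 := grow1 κ j
  set a := 2 * κ + 10 + j with hadef
  rw [← pow_mul, ← pow_add, ← pow_add]
  apply Nat.pow_lt_pow_right (by norm_num)
  have h5 : 2 ^ (a + κ) = 2 ^ a * 2 ^ κ := pow_add _ _ _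
  rw [h5]
  have h6 : 1 ≤ 2 ^ a := Nat.one_le_two_pow
  set u := 2 ^ κ with hu
  set v := 2 ^ a with hv
  have h9 : (3 * ((a + κ) * u) + 2 * κ * a) * v < v * v := Nat.mul_lt_mul_of_pos_right h8 h6
  have h10 : 2 * (κ * a) ≤ 2 * κ * a * v := by
    calc 2 * (κ * a) = 2 * κ * a * 1 := by ring
      _ ≤ 2 * κ * a * v := Nat.mul_le_mul_left _ h6
  calc s * m + (s * m + 3 * ((a + κ) * (v * u))) ≤ 2 * (κ * a) + 3 * ((a + κ) * (v * u)) := by
        omega
    _ ≤ 2 * κ * a * v + 3 * ((a + κ) * (v * u)) := by omega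
    _ = (3 * ((a + κ) * u) + 2 * κ * a) * v := by ring
    _ < v * v := h9

/-! ### The families -/

open Classical in
theorem family (k m s a b : ℕ) (hs : 5 ≤ s) (hmN : m * (4 * k + 4) ≤ a)
    (ha : 2 * (s * ((4 * k + 4) * (4 * k + 4) + 1)) + 10 ≤ a)
    (hb : a + s * ((4 * k + 4) * (4 * k + 4) + 1) = b) :
    ∃ 𝓕 : Finset (SimpleGraph (Fin ((2 ^ b) ^ 2))), 2 ^ (s * m) ≤ 6 * 𝓕.card ∧
      (∀ G ∈ 𝓕, G.IsSRGWith ((2 ^ b) ^ 2) (3 * (2 ^ b - 1)) (2 ^ b) 6) ∧
      ∀ G ∈ 𝓕, ∀ H ∈ 𝓕, WLEquivalent k G H ∧ (G ≠ H → IsEmpty (G ≃g H)) := by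
  obtain ⟨N, hN⟩ : ∃ N : ℕ, N = 4 * k + 4 := ⟨_, rfl⟩
  obtain ⟨κ, hκ⟩ : ∃ κ : ℕ, κ = s * (N * N + 1) := ⟨_, rfl⟩
  rw [← hN] at hmN ha hb
  rw [← hκ] at ha hb
  have hN4 : 4 ≤ N := by omega
  have hκN : N * N ≤ κ := by
    rw [hκ]
    have : 1 * (N * N) ≤ s * (N * N + 1) := Nat.mul_le_mul (by omega) (by omega)
    omega
  have hNκ : N ≤ κ := le_trans (Nat.le_mul_self N) hκN
  have hsκ : s ≤ κ := by
    rw [hκ]
    exact Nat.le_mul_of_pos_right _ (by omega)
  have hma : m ≤ a := le_trans (Nat.le_mul_of_pos_right _ (by omega)) hmN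
  have hΓ : Fintype.card (Fin s → ZMod 2) = 2 ^ s := by
    rw [Fintype.card_fun, ZMod.card, Fintype.card_fin]
  have hAc : Fintype.card (Fin a → ZMod 2) = 2 ^ a := by
    rw [Fintype.card_fun, ZMod.card, Fintype.card_fin]
  have hQc : Fintype.card (QQ N (Fin a → ZMod 2) (Fin s → ZMod 2)) = 2 ^ b := by
    rw [card_QQ, hΓ, hAc, ← hb, hκ, ← pow_mul, ← pow_mul, ← pow_add, ← pow_add]
    have : a + (s * (N * N) + s) = a + s * (N * N + 1) := by ring
    rw [this]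
  have hQ5 : 5 ≤ Fintype.card (QQ N (Fin a → ZMod 2) (Fin s → ZMod 2)) := by
    rw [hQc]
    have h1 : b < 2 ^ b := Nat.lt_two_pow_self
    omega
  have hΓ32 : 32 ≤ Fintype.card (Fin s → ZMod 2) := by
    rw [hΓ]
    calc 32 = 2 ^ 5 := by norm_num
      _ ≤ 2 ^ s := Nat.pow_le_pow_right (by norm_num) hs
  have hK : numData (Fintype.card (QQ N (Fin a → ZMod 2) (Fin s → ZMod 2)))
      (Fintype.card (Fin s → ZMod 2) ^ m) <
      2 ^ (Fintype.card (Fin a → ZMod 2) * Fintype.card (Fin a → ZMod 2)) := by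
    rw [hQc, hAc, hΓ, ← hb]
    exact numeric2 κ a s m ha (Nat.mul_le_mul hsκ hma)
  have hA3 : 2 * (1 + m * (1 + N + N * N)) < Fintype.card (Fin a → ZMod 2) := by
    rw [hAc]
    obtain ⟨j, rfl⟩ := Nat.exists_eq_add_of_le (show 9 ≤ a by omega)
    refine lt_of_le_of_lt ?_ (sq_lt j)
    have h1 : m * (1 + N + N * N) = m + m * N + (m * N) * N := by ring
    have h2 : m * N * N ≤ (9 + j) * (9 + j) := Nat.mul_le_mul hmN (by omega)
    rw [h1]
    nlinarith
  have hd := stdEs_isDual2 hmN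
  let bs : Fin N := ⟨0, by omega⟩
  obtain ⟨h, hgen⟩ := exists_generic (Γ := Fin s → ZMod 2) hd bs hΓ32 hK hA3
  have hSRG : ∀ τ : Fin m → Fin s → ZMod 2, (GS (stdEs hmN) bs h τ).IsSRGWith ((2 ^ b) ^ 2)
      (3 * (2 ^ b - 1)) (2 ^ b) 6 := by
    intro τ
    have h1 := IsNet.isSRG (co_isNet (FS (stdEs hmN) bs h τ)) (le_trans (by norm_num) hQ5)
    rw [hQc] at h1
    exact h1
  have hVc : Fintype.card (QQ N (Fin a → ZMod 2) (Fin s → ZMod 2) ×
      QQ N (Fin a → ZMod 2) (Fin s → ZMod 2)) = (2 ^ b) ^ 2 := by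
    rw [Fintype.card_prod, hQc, pow_two]
  let F : (Fin m → Fin s → ZMod 2) → SimpleGraph (Fin ((2 ^ b) ^ 2)) := fun τ =>
    (GS (stdEs hmN) bs h τ).overFin hVc
  have φ : ∀ τ, GS (stdEs hmN) bs h τ ≃g F τ := fun τ =>
    (GS (stdEs hmN) bs h τ).overFinIso hVc
  -- representatives of the isomorphism classes
  let st : Setoid (Fin m → Fin s → ZMod 2) :=
    { r := fun τ τ' => Nonempty (GS (stdEs hmN) bs h τ ≃g GS (stdEs hmN) bs h τ')
      iseqv := ⟨fun _ => ⟨RelIso.refl _⟩, fun ⟨f⟩ => ⟨f.symm⟩, fun ⟨f⟩ ⟨g⟩ => ⟨f.trans g⟩⟩ }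
  let rep : (Fin m → Fin s → ZMod 2) → (Fin m → Fin s → ZMod 2) := fun τ =>
    Quotient.out (Quotient.mk st τ)
  have hrep : ∀ τ, Nonempty (GS (stdEs hmN) bs h (rep τ) ≃g GS (stdEs hmN) bs h τ) := fun τ =>
    Quotient.exact (Quotient.out_eq (Quotient.mk st τ))
  have hrep2 : ∀ τ τ', Nonempty (GS (stdEs hmN) bs h τ ≃g GS (stdEs hmN) bs h τ') →
      rep τ = rep τ' := by
    intro τ τ' hττ
    have : Quotient.mk st τ = Quotient.mk st τ' := Quotient.sound hττ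
    show Quotient.out (Quotient.mk st τ) = Quotient.out (Quotient.mk st τ')
    rw [this]
  let R : Finset (Fin m → Fin s → ZMod 2) := Finset.univ.image rep
  have hRcard : 2 ^ (s * m) ≤ 6 * R.card := by
    have h1 : (Finset.univ : Finset (Fin m → Fin s → ZMod 2)).card ≤ 6 * R.card := by
      refine Finset.card_le_mul_card_image _ 6 ?_
      intro t _
      refine card_iso_le hQ5 hgen t _ ?_
      intro τ hτ
      have h2 := (Finset.mem_filter.1 hτ).2
      rw [← h2]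
      exact hrep τ
    rw [Finset.card_univ, Fintype.card_fun, hΓ, Fintype.card_fin, ← pow_mul] at h1
    exact h1
  have hRiso : ∀ t ∈ R, ∀ t' ∈ R,
      Nonempty (GS (stdEs hmN) bs h t ≃g GS (stdEs hmN) bs h t') → t = t' := by
    intro t ht t' ht' htt
    obtain ⟨τ, -, rfl⟩ := Finset.mem_image.1 ht
    obtain ⟨τ', -, rfl⟩ := Finset.mem_image.1 ht'
    obtain ⟨f⟩ := hrep τ
    obtain ⟨f'⟩ := hrep τ'
    obtain ⟨g⟩ := htt
    exact hrep2 τ τ' ⟨(f.symm.trans g).trans f'⟩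
  have hinj : Set.InjOn F R := by
    intro t ht t' ht' htt
    refine hRiso t ht t' ht' ⟨?_⟩
    have h1 := φ t
    have h2 := φ t'
    rw [htt] at h1
    exact h1.trans h2.symm
  refine ⟨R.image F, ?_, ?_, ?_⟩
  · rw [Finset.card_image_of_injOn hinj]
    exact hRcard
  · intro G hG
    obtain ⟨t, -, rfl⟩ := Finset.mem_image.1 hG
    exact isSRG_iso (φ t) (hSRG t)
  · intro G hG H hH
    obtain ⟨t, ht, rfl⟩ := Finset.mem_image.1 hG
    obtain ⟨t', ht', rfl⟩ := Finset.mem_image.1 hH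
    refine ⟨WLE_congr (φ t) (φ t') (wlEquivalent_GS hd t t' (by omega) h), fun hne => ?_⟩
    refine ⟨fun f => hne ?_⟩
    rw [hRiso t ht t' ht' ⟨((φ t).trans f).trans (φ t').symm⟩]

theorem params (K b : ℕ) (hK : 1 ≤ K) (hb : 400 * K ^ 2 ≤ b) :
    ∃ s a m : ℕ, 5 ≤ s ∧ m * (4 * K) ≤ a ∧ 2 * (s * ((4 * K) * (4 * K) + 1)) + 10 ≤ a ∧
      a + s * ((4 * K) * (4 * K) + 1) = b ∧ b ^ 2 / (500 * K ^ 3) + 3 ≤ s * m := by
  obtain ⟨s, hs⟩ : ∃ s, s = b / (64 * K ^ 2) := ⟨_, rfl⟩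
  have hK2 : 0 < 64 * K ^ 2 := by positivity
  have hs1 : s * (64 * K ^ 2) ≤ b := by
    rw [hs]
    exact Nat.div_mul_le_self _ _
  have hs2 : b < (s + 1) * (64 * K ^ 2) := by
    rw [hs]
    have := Nat.lt_mul_div_succ b hK2
    rw [mul_comm] at this
    exact this
  have hκ : s * ((4 * K) * (4 * K) + 1) * 64 ≤ 17 * b := by
    have h1 : (4 * K) * (4 * K) + 1 ≤ 17 * K ^ 2 := by nlinarith
    have h2 : s * ((4 * K) * (4 * K) + 1) ≤ s * (17 * K ^ 2) := Nat.mul_le_mul_left _ h1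
    nlinarith
  have hb400 : 400 ≤ b := by nlinarith
  obtain ⟨κ, hκd⟩ : ∃ κ, κ = s * ((4 * K) * (4 * K) + 1) := ⟨_, rfl⟩
  rw [← hκd] at hκ
  obtain ⟨a, ha⟩ : ∃ a, a + κ = b := ⟨b - κ, by omega⟩
  obtain ⟨m, hm⟩ : ∃ m, m = a / (4 * K) := ⟨_, rfl⟩
  have hm1 : m * (4 * K) ≤ a := by
    rw [hm]
    exact Nat.div_mul_le_self _ _
  have hm2 : a < (m + 1) * (4 * K) := by
    rw [hm]
    have := Nat.lt_mul_div_succ a (show 0 < 4 * K by omega)
    rw [mul_comm] at this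
    exact this
  refine ⟨s, a, m, ?_, hm1, ?_, by rw [← hκd]; exact ha, ?_⟩
  · by_contra h
    push Not at h
    have : (s + 1) * (64 * K ^ 2) ≤ 5 * (64 * K ^ 2) := Nat.mul_le_mul_right _ (by omega)
    nlinarith
  · rw [← hκd]
    omega
  · have hE : b ^ 2 / (500 * K ^ 3) * (500 * K ^ 3) ≤ b ^ 2 := Nat.div_mul_le_self _ _
    set E := b ^ 2 / (500 * K ^ 3) with hEd
    have hKr : (1 : ℝ) ≤ K := by exact_mod_cast hK
    have hKpos : (0 : ℝ) < K := by linarith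
    obtain ⟨x, hx⟩ : ∃ x : ℝ, x = b / (K : ℝ) ^ 2 := ⟨_, rfl⟩
    have hbx : (b : ℝ) = x * (K : ℝ) ^ 2 := by
      rw [hx]
      field_simp
    have hx400 : 400 ≤ x := by
      rw [hx, le_div_iff₀ (by positivity)]
      exact_mod_cast hb
    have hsr : x / 64 - 1 < s := by
      have h1 : (b : ℝ) < (s + 1) * (64 * (K : ℝ) ^ 2) := by exact_mod_cast hs2
      rw [hbx] at h1
      have h2 : x < (s + 1) * 64 := by
        by_contra h
        push Not at h
        have : (s + 1) * 64 * (K : ℝ) ^ 2 ≤ x * (K : ℝ) ^ 2 :=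
          mul_le_mul_of_nonneg_right h (by positivity)
        linarith
      linarith
    have hs3 : 0.013125 * x ≤ s := by linarith
    have har : 47 / 64 * (x * (K : ℝ) ^ 2) ≤ a := by
      have h1 : (κ : ℝ) * 64 ≤ 17 * b := by exact_mod_cast hκ
      have h2 : (a : ℝ) + κ = b := by exact_mod_cast ha
      rw [hbx] at h1 h2
      linarith
    have hm3 : 0.181 * (x * K) ≤ m := by
      have h1 : (a : ℝ) < (m + 1) * (4 * K) := by exact_mod_cast hm2
      have h2 : 47 / 64 * (x * (K : ℝ) ^ 2) < (m + 1) * (4 * K) := lt_of_le_of_lt har h1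
      have h3 : 47 / 256 * (x * K) < m + 1 := by
        by_contra h
        push Not at h
        have : (m + 1) * (4 * K) ≤ 47 / 256 * (x * K) * (4 * K) :=
          mul_le_mul_of_nonneg_right h (by positivity)
        nlinarith
      have h4 : 400 ≤ x * K := by nlinarith
      linarith
    have hsm : 0.002375 * (x ^ 2 * K) ≤ (s : ℝ) * m := by
      have h1 : 0.013125 * x * (0.181 * (x * K)) ≤ (s : ℝ) * m :=
        mul_le_mul hs3 hm3 (by positivity) (by positivity)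
      have h2 : 0 ≤ x ^ 2 * K := by positivity
      nlinarith
    have hEr : (E : ℝ) ≤ 0.002 * (x ^ 2 * K) := by
      have h1 : (E : ℝ) * (500 * (K : ℝ) ^ 3) ≤ (b : ℝ) ^ 2 := by exact_mod_cast hE
      rw [hbx] at h1
      have h2 : (E : ℝ) * (500 * (K : ℝ) ^ 3) ≤ 0.002 * (x ^ 2 * K) * (500 * (K : ℝ) ^ 3) := by
        nlinarith
      exact le_of_mul_le_mul_right h2 (by positivity)
    have hfin : (E : ℝ) + 3 ≤ (s : ℝ) * m := by
      have h1 : 160000 ≤ x ^ 2 * K := by nlinarith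
      linarith
    exact_mod_cast hfin

open Classical in
theorem main (k b : ℕ) (hb : 400 * (k + 1) ^ 2 ≤ b) :
    ∃ 𝓕 : Finset (SimpleGraph (Fin ((2 ^ b) ^ 2))),
      2 ^ (b ^ 2 / (500 * (k + 1) ^ 3)) ≤ 𝓕.card ∧
      (∀ G ∈ 𝓕, G.IsSRGWith ((2 ^ b) ^ 2) (3 * (2 ^ b - 1)) (2 ^ b) 6) ∧
      ∀ G ∈ 𝓕, ∀ H ∈ 𝓕, WLEquivalent k G H ∧ (G ≠ H → IsEmpty (G ≃g H)) := by
  obtain ⟨s, a, m, h1, h2, h3, h4, h5⟩ := params (k + 1) b (by omega) hb
  have e : 4 * k + 4 = 4 * (k + 1) := by ring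
  obtain ⟨𝓕, hc, hF⟩ := family k m s a b h1 (by rw [e]; exact h2) (by rw [e]; exact h3)
    (by rw [e]; exact h4)
  refine ⟨𝓕, ?_, hF⟩
  have h6 : 2 ^ (b ^ 2 / (500 * (k + 1) ^ 3)) * 8 ≤ 2 ^ (s * m) := by
    calc 2 ^ (b ^ 2 / (500 * (k + 1) ^ 3)) * 8 = 2 ^ (b ^ 2 / (500 * (k + 1) ^ 3) + 3) := by
          rw [pow_add]
          norm_num
      _ ≤ 2 ^ (s * m) := Nat.pow_le_pow_right (by norm_num) h5
  omega

end Pool.Agent.KS6_51.WQ
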